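import Mathlib
import Pool.Agent.H230R2.Sail.General3
import Pool.Agent.Y930.Sail.Geo

/-!
# A finite min-max criterion for the integer `n`-gons that are not `m`-realizable

`Pool.Agent.H230R2.Sail.Defs` contains the definitions: `IsPolygon n v` (the integer points
`v 0, ..., v (n-1)` are the vertices of a convex `n`-gon in counterclockwise order), `poly v`
(their convex hull), `IsGon k Q` (convex polygon with exactly `k` sides and arbitrary real
vertices), `Realizable m P`, and `side v i x` (the determinant of the edge vector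
`v (i+1) - v i` and `x - v i`; it is nonnegative on `P`, and its value at an integer point is an
integer multiple of the integer length of the edge, the factor being plus or minus the integer
distance to the line of the edge).
-/

namespace Pool.Agent.Results.MP_2d08ba_nt.HullPacking

open H230R2.Sail Y930.Sail

/-- The integer points outside `P` which, for every edge of `P`, are on the inner side of the
line of this edge, or on it, or at integer distance one from it. -/
def shell {n : ℕ} (v : ZMod n → ℤ × ℤ) : Set (ℤ × ℤ) :=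
  {z | toR z ∉ poly v ∧ ∀ i : ZMod n,
    -(Int.gcd ((v (i + 1)).1 - (v i).1) ((v (i + 1)).2 - (v i).2) : ℝ) ≤ side v i (toR z)}

/-- `S` consists of `(m + 1) q + 1` points, and the convex hull of any `q + 1` of them meets
`P`. -/
def Blocks (m q : ℕ) (S : Finset (ℤ × ℤ)) (P : Set (ℝ × ℝ)) : Prop :=
  S.card = (m + 1) * q + 1 ∧
    ∀ F ⊆ S, F.card = q + 1 → (convexHull ℝ (toR '' (F : Set (ℤ × ℤ))) ∩ P).Nonempty

lemma hull_disjoint {n : ℕ} (v : ZMod n → ℤ × ℤ) (F : Finset (ℤ × ℤ)) (a : ℝ × ℝ)
    (ha : ∀ z ∈ F, ∀ k, dot a (toR (v k)) < dot a (toR z)) :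
    ¬ (convexHull ℝ (toR '' (F : Set (ℤ × ℤ))) ∩ poly v).Nonempty := by
  rintro ⟨x, hx1, hx2⟩
  have hlin : ∀ (p q : ℝ × ℝ) (s t : ℝ), dot a (s • p + t • q) = s * dot a p + t * dot a q := by
    intro p q s t
    simp only [dot, Prod.fst_add, Prod.snd_add, Prod.smul_fst, Prod.smul_snd, smul_eq_mul]
    ring
  rcases isEmpty_or_nonempty (ZMod n) with h0 | h0
  · have : (Set.range fun i => toR (v i)) = ∅ := Set.range_eq_empty _
    rw [poly, this, convexHull_empty] at hx2
    exact hx2
  rcases F.eq_empty_or_nonempty with rfl | hF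
  · simp at hx1
  -- the least value of `a` on `F`
  obtain ⟨z0, hz0, hmin⟩ := Finset.exists_min_image F (fun z => dot a (toR z)) hF
  have h1 : dot a (toR z0) ≤ dot a x := by
    have hconv : Convex ℝ {y : ℝ × ℝ | dot a (toR z0) ≤ dot a y} := by
      intro p hp q hq s t hs ht hst
      simp only [Set.mem_ofPred_eq] at *
      rw [hlin]
      have := mul_le_mul_of_nonneg_left hp hs
      have := mul_le_mul_of_nonneg_left hq ht
      have h3 : s * dot a (toR z0) + t * dot a (toR z0) = dot a (toR z0) := by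
        rw [← add_mul, hst, one_mul]
      linarith
    have := convexHull_min (s := toR '' (F : Set (ℤ × ℤ)))
      (t := {y : ℝ × ℝ | dot a (toR z0) ≤ dot a y}) (by
        rintro _ ⟨z, hz, rfl⟩
        exact hmin z hz) hconv
    exact this hx1
  have h2 : dot a x < dot a (toR z0) := by
    have hconv : Convex ℝ {y : ℝ × ℝ | dot a y < dot a (toR z0)} := by
      intro p hp q hq s t hs ht hst
      simp only [Set.mem_ofPred_eq] at *
      rw [hlin]
      have h3 : s * dot a (toR z0) + t * dot a (toR z0) = dot a (toR z0) := by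
        rw [← add_mul, hst, one_mul]
      rcases hs.eq_or_lt with h4 | h4
      · have ht1 : t = 1 := by linarith
        rw [← h4, ht1]; linarith
      · have := mul_lt_mul_of_pos_left hp h4
        have := mul_le_mul_of_nonneg_left hq.le ht
        linarith
    have := convexHull_min (s := Set.range fun i => toR (v i))
      (t := {y : ℝ × ℝ | dot a y < dot a (toR z0)}) (by
        rintro _ ⟨k, rfl⟩
        exact ha z0 hz0 k) hconv
    exact this hx2
  linarith

lemma exists_separation {n : ℕ} [NeZero n] (v : ZMod n → ℤ × ℤ) (F : Finset (ℤ × ℤ))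
    (hd : ¬ (convexHull ℝ (toR '' (F : Set (ℤ × ℤ))) ∩ poly v).Nonempty) :
    ∃ a : ℝ × ℝ, ∀ z ∈ F, ∀ k, dot a (toR (v k)) < dot a (toR z) := by
  have hcomp : IsCompact (poly v) := (Set.finite_range _).isCompact_convexHull ℝ
  have hcl : IsClosed (convexHull ℝ (toR '' (F : Set (ℤ × ℤ)))) :=
    ((F.finite_toSet.image toR).isCompact_convexHull ℝ).isClosed
  have hdisj : Disjoint (poly v) (convexHull ℝ (toR '' (F : Set (ℤ × ℤ)))) := by
    rw [Set.disjoint_iff_inter_eq_empty, Set.inter_comm]
    exact Set.not_nonempty_iff_eq_empty.mp hd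
  obtain ⟨g, u, w, hg1, huw, hg2⟩ := geometric_hahn_banach_compact_closed
    (convex_convexHull ℝ _) hcomp (convex_convexHull ℝ _) hcl hdisj
  refine ⟨(g (1, 0), g (0, 1)), fun z hz k => ?_⟩
  have hgb : ∀ y : ℝ × ℝ, g y = dot (g (1, 0), g (0, 1)) y := by
    intro y
    have : y = y.1 • ((1 : ℝ), (0 : ℝ)) + y.2 • ((0 : ℝ), (1 : ℝ)) := by
      ext <;> simp
    conv_lhs => rw [this]
    rw [map_add, map_smul, map_smul]
    simp only [dot, smul_eq_mul]
    ring
  rw [← hgb, ← hgb]
  have h1 := hg1 _ (vertex_mem v k)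
  have h2 := hg2 _ (subset_convexHull ℝ _ ⟨z, hz, rfl⟩)
  linarith

/-- **Theorem.** Let `m + 2 ≤ n` and let `P` be an integer `n`-gon. Then `P` is not
`m`-realizable if and only if, for some `q`, there are `(m + 1) q + 1` integer points outside `P`
such that the convex hull of any `q + 1` of them meets `P`; and if there are such points, then
there are such points in the explicit finite set `shell v`. -/
theorem result (m n : ℕ) (hmn : m + 2 ≤ n) (v : ZMod n → ℤ × ℤ) (hv : IsPolygon n v) :
    (shell v).Finite ∧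
    (¬ Realizable m (poly v) ↔
      ∃ (q : ℕ) (S : Finset (ℤ × ℤ)), (∀ z ∈ S, toR z ∉ poly v) ∧ Blocks m q S (poly v)) ∧
    (¬ Realizable m (poly v) ↔
      ∃ (q : ℕ) (S : Finset (ℤ × ℤ)), (∀ z ∈ S, z ∈ shell v) ∧ Blocks m q S (poly v)) := by
  classical
  have : NeZero n := ⟨by omega⟩
  have h13 : ¬ Realizable m (poly v) →
      ∃ (q : ℕ) (S : Finset (ℤ × ℤ)), (∀ z ∈ S, z ∈ shell v) ∧ Blocks m q S (poly v) := by
    intro h
    obtain ⟨S, hS, q, hq, hdepth⟩ := exists_packing hmn hv h
    obtain ⟨T, hTS, hT⟩ := Finset.exists_subset_card_eq (Nat.succ_le_of_lt hq)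
    refine ⟨q, T, fun z hz => hS z (hTS hz), hT, fun F hF hFq => ?_⟩
    by_contra hcon
    obtain ⟨a, ha⟩ := exists_separation v F hcon
    have := hdepth a F (hF.trans hTS) ha
    omega
  have h21 : (∃ (q : ℕ) (S : Finset (ℤ × ℤ)), (∀ z ∈ S, toR z ∉ poly v) ∧
      Blocks m q S (poly v)) → ¬ Realizable m (poly v) := by
    rintro ⟨q, S, hS, hcard, hblock⟩
    refine not_realizable_of_packing v S hS q (by omega) fun a F hF ha => ?_
    by_contra hcon
    push Not at hcon
    obtain ⟨G, hGF, hG⟩ := Finset.exists_subset_card_eq (Nat.succ_le_of_lt hcon)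
    exact hull_disjoint v G a (fun z hz => ha z (hGF hz)) (hblock G (hGF.trans hF) hG)
  have h32 : (∃ (q : ℕ) (S : Finset (ℤ × ℤ)), (∀ z ∈ S, z ∈ shell v) ∧ Blocks m q S (poly v)) →
      ∃ (q : ℕ) (S : Finset (ℤ × ℤ)), (∀ z ∈ S, toR z ∉ poly v) ∧ Blocks m q S (poly v) := by
    rintro ⟨q, S, hS, hb⟩
    exact ⟨q, S, fun z hz => (hS z hz).1, hb⟩
  exact ⟨near_finite hv, ⟨fun h => h32 (h13 h), h21⟩, ⟨h13, fun h => h21 (h32 h)⟩⟩

end Pool.Agent.Results.MP_2d08ba_nt.HullPacking
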